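import Pool.Agent.W541.DL.Stm

namespace Pool.Agent.W621.DL.EXIT

open Pool.Agent.W541.DL MeasureTheory ProbabilityTheory Filter Topology

/-- Step 1: a path leaving the corridor goes through a point of the boundary. -/
theorem step1 (n : ℕ) (x β : ℝ) (hn : 1 ≤ n) (hβ : 0 ≤ β) (τ : ℕ → ℝ) (hm : Monotone τ)
    (h0 : τ 0 = x) (h1 : τ n = 1 + x) (hc : τ ∉ corr n x β) :
    ∃ j < n, ∃ γ : ℝ, (γ = β + 1 / n ∨ γ = -β) ∧ 0 ≤ (j : ℝ) / n + γ ∧ (j : ℝ) / n + γ ≤ 1 ∧
      τ j ≤ x + j / n + γ ∧ x + j / n + γ ≤ τ (j + 1) := by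
  classical
  have hn0 : (0 : ℝ) < n := by exact_mod_cast hn
  have hex : ∃ k ≤ n, β < |τ k - x - (k : ℝ) / n| := by
    by_contra hcon
    push Not at hcon
    exact hc ⟨hm, h0, h1, hcon⟩
  obtain ⟨k, hkn, hk⟩ := hex
  rcases lt_abs.1 hk with hk | hk
  · -- upper case
    have hP : ∃ i : ℕ, x + (i : ℝ) / n + β < τ i := ⟨k, by linarith⟩
    set k0 := Nat.find hP with hk0
    have hk0P : x + (k0 : ℝ) / n + β < τ k0 := Nat.find_spec hP
    have hk0n : k0 ≤ n := le_trans (Nat.find_min' hP (by linarith)) hkn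
    have hk1 : k0 ≠ 0 := by
      intro h
      rw [h, h0] at hk0P
      simp at hk0P
      linarith
    obtain ⟨j, hj⟩ : ∃ j, k0 = j + 1 := ⟨k0 - 1, by omega⟩
    have hmin : ¬ (x + (j : ℝ) / n + β < τ j) := Nat.find_min hP (by omega)
    rw [not_lt] at hmin
    have hjn : (1 : ℝ) / n ≥ 0 := by positivity
    have hcast : ((k0 : ℕ) : ℝ) / n = (j : ℝ) / n + 1 / n := by
      rw [hj]; push_cast; ring
    have hjj : (0 : ℝ) ≤ (j : ℝ) / n := by positivity
    have hle : τ k0 ≤ 1 + x := by rw [← h1]; exact hm hk0n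
    refine ⟨j, by omega, β + 1 / n, Or.inl rfl, by linarith, by linarith, by linarith, ?_⟩
    rw [← hj]; linarith
  · -- lower case
    have hP : ∃ i : ℕ, τ (n - i) < x + ((n - i : ℕ) : ℝ) / n - β := ⟨n - k, by
      rw [show n - (n - k) = k by omega]; linarith⟩
    set i0 := Nat.find hP with hi0
    have hi0P : τ (n - i0) < x + ((n - i0 : ℕ) : ℝ) / n - β := Nat.find_spec hP
    have hi0n : i0 ≤ n - k := Nat.find_min' hP (by
      rw [show n - (n - k) = k by omega]; linarith)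
    have hi1 : i0 ≠ 0 := by
      intro h
      rw [h, Nat.sub_zero, h1, div_self hn0.ne'] at hi0P
      linarith
    have hmin : ¬ (τ (n - (i0 - 1)) < x + ((n - (i0 - 1) : ℕ) : ℝ) / n - β) :=
      Nat.find_min hP (by omega)
    rw [not_lt] at hmin
    obtain ⟨j, hj⟩ : ∃ j, n - i0 = j := ⟨_, rfl⟩
    have hj1 : n - (i0 - 1) = j + 1 := by omega
    rw [hj1] at hmin
    rw [hj] at hi0P
    have hcast : (((j + 1 : ℕ) : ℕ) : ℝ) / n = (j : ℝ) / n + 1 / n := by push_cast; ring
    rw [hcast] at hmin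
    have hjn : (1 : ℝ) / n ≥ 0 := by positivity
    have h0j : x ≤ τ j := by rw [← h0]; exact hm (Nat.zero_le _)
    have hj2 : j < n := by omega
    have hj3 : (j : ℝ) / n ≤ 1 := by
      rw [div_le_one hn0]; exact_mod_cast hj2.le
    exact ⟨j, hj2, -β, Or.inr rfl, by linarith, by linarith, by linarith, by linarith⟩

theorem paths_nonempty (n : ℕ) (x : ℝ) (hn : 1 ≤ n) : (paths n x (1 + x)).Nonempty := by
  refine ⟨fun k => if k = 0 then x else 1 + x, ?_, ?_, ?_⟩
  · intro a b hab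
    dsimp only
    split_ifs with h1 h2
    · exact le_rfl
    · linarith
    · omega
    · exact le_rfl
  · simp
  · simp only; rw [if_neg (by omega)]

theorem main (hB : S_BDD) (hS : S_SPLIT) : S_EXIT := by
  intro w n x β hw hn hβ hlt
  classical
  by_contra hcon
  -- the boundary values
  set F : ℕ → ℝ → ℝ := fun j γ => blpp w (j + 1) x (x + j / n + γ) +
      blpp (fun k => w (j + k)) (n - j) (x + j / n + γ) (1 + x) with hF
  set adm : ℕ → ℝ → Prop := fun j γ => j < n ∧ 0 ≤ (j : ℝ) / n + γ ∧ (j : ℝ) / n + γ ≤ 1 with hadm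
  have hcon' : ∀ j γ, (γ = β + 1 / n ∨ γ = -β) → adm j γ → F j γ < blpp w n x (1 + x) := by
    intro j γ hγ ha
    by_contra h
    rw [not_lt] at h
    exact hcon ⟨j, ha.1, γ, hγ, ha.2.1, ha.2.2, h⟩
  set T : Finset ℝ := insert (supK w n (corr n x β))
    (((Finset.range n ×ˢ ({β + 1 / (n : ℝ), -β} : Finset ℝ)).filter
      (fun q => adm q.1 q.2)).image (fun q => F q.1 q.2)) with hT
  have hTn : T.Nonempty := Finset.insert_nonempty _ _
  have hM : T.max' hTn < blpp w n x (1 + x) := by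
    rw [Finset.max'_lt_iff]
    intro y hy
    rw [hT, Finset.mem_insert] at hy
    rcases hy with hy | hy
    · rw [hy]; exact hlt
    · rw [Finset.mem_image] at hy
      obtain ⟨q, hq, rfl⟩ := hy
      rw [Finset.mem_filter, Finset.mem_product] at hq
      have h2 := hq.1.2
      rw [Finset.mem_insert, Finset.mem_singleton] at h2
      exact hcon' q.1 q.2 h2 hq.2
  have hne : (pathVal w n '' paths n x (1 + x)).Nonempty := (paths_nonempty n x hn).image _
  obtain ⟨a, ⟨τ, hτ, rfl⟩, ha⟩ := exists_lt_of_lt_csSup hne (show T.max' hTn <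
    sSup (pathVal w n '' paths n x (1 + x)) from hM)
  by_cases hc : τ ∈ corr n x β
  · have hsub : pathVal w n '' corr n x β ⊆ pathVal w n '' paths n x (1 + x) :=
      Set.image_mono (fun σ hσ => ⟨hσ.1, hσ.2.1, hσ.2.2.1⟩)
    have hbdd : BddAbove (pathVal w n '' corr n x β) := (hB w n x (1 + x) hw).mono hsub
    have h1 : pathVal w n τ ≤ supK w n (corr n x β) := le_csSup hbdd ⟨τ, hc, rfl⟩
    have h2 : supK w n (corr n x β) ≤ T.max' hTn :=
      Finset.le_max' _ _ (Finset.mem_insert_self _ _)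
    linarith
  · obtain ⟨j, hj, γ, hγ, h1, h2, h3, h4⟩ := step1 n x β hn hβ τ hτ.1 hτ.2.1 hτ.2.2 hc
    have h5 := hS w n j τ (x + j / n + γ) hw hτ.1 hj h3 h4
    rw [hτ.2.1, hτ.2.2] at h5
    have h6 : F j γ ≤ T.max' hTn := by
      apply Finset.le_max'
      apply Finset.mem_insert_of_mem
      rw [Finset.mem_image]
      refine ⟨(j, γ), ?_, rfl⟩
      rw [Finset.mem_filter, Finset.mem_product]
      refine ⟨⟨Finset.mem_range.2 hj, ?_⟩, ⟨hj, h1, h2⟩⟩
      rw [Finset.mem_insert, Finset.mem_singleton]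
      exact hγ
    have h7 : pathVal w n τ ≤ F j γ := h5
    linarith

end Pool.Agent.W621.DL.EXIT
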